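import Pool.Agent.helper48.TH.Spec2

set_option autoImplicit false

namespace TP.TW

open DP MeasureTheory Finset

theorem SUG_cnt (X : Finset V) (α β : ℤ) (w : V) (r : ℕ) :
    #(X.filter fun v => sd (v.1 + α, v.2 + β) w ≤ r) ≤ (2 * r + 1) ^ 2 := by
  have hsub : X.filter (fun v => sd (v.1 + α, v.2 + β) w ≤ r) ⊆
      Icc (w.1 - α - r) (w.1 - α + r) ×ˢ Icc (w.2 - β - r) (w.2 - β + r) := by
    intro v hv
    rw [mem_filter] at hv
    have h := hv.2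
    unfold sd at h
    have h1 := le_trans (le_max_left _ _) h
    have h2 := le_trans (le_max_right _ _) h
    rw [mem_product, mem_Icc, mem_Icc]
    simp only at h1 h2
    refine ⟨⟨?_, ?_⟩, ?_, ?_⟩ <;> omega
  refine (card_le_card hsub).trans ?_
  rw [card_product, Int.card_Icc, Int.card_Icc]
  have e1 : (w.1 - α + r + 1 - (w.1 - α - r)).toNat = 2 * r + 1 := by omega
  have e2 : (w.2 - β + r + 1 - (w.2 - β - r)).toNat = 2 * r + 1 := by omega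
  rw [e1, e2, pow_two]

theorem SUG_dbl (X Ω : Finset V) (w : V → ℝ) (hw : ∀ v, 0 ≤ w v) (α β : ℤ) (r : ℕ) :
    ∑ v₀ ∈ X, ∑ v ∈ Ω with sd (v₀.1 + α, v₀.2 + β) v ≤ r, w v ≤ (2 * (r : ℝ) + 1) ^ 2 * ∑ v ∈ Ω, w v := by
  simp_rw [sum_filter]
  rw [sum_comm, mul_sum]
  refine sum_le_sum fun v _ => ?_
  rw [← sum_filter, sum_const, nsmul_eq_mul]
  refine mul_le_mul_of_nonneg_right ?_ (hw v)
  exact_mod_cast SUG_cnt X α β v r

theorem SUG_dbl4 (X Ω : Finset V) (w : V → ℝ) (hw : ∀ v, 0 ≤ w v) (α β : ℤ) (t : ℕ) (ht : 1 ≤ t) :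
    ∑ v₀ ∈ X, ∑ v ∈ Ω with sd (v₀.1 + α, v₀.2 + β) v ≤ 4 * t, w v ≤ 81 * (t : ℝ) ^ 2 * ∑ v ∈ Ω, w v := by
  have h := SUG_dbl X Ω w hw α β (4 * t)
  simp only [Nat.cast_mul, Nat.cast_ofNat] at h
  refine h.trans (mul_le_mul_of_nonneg_right ?_ (sum_nonneg fun v _ => hw v))
  have : (1 : ℝ) ≤ t := by exact_mod_cast ht
  nlinarith

instance SUG_prob : IsProbabilityMeasure P1 := by
  unfold P1
  infer_instance

theorem SUG_pt (R : ℕ) (S : (V → Bool) → Finset V) (Ω : Finset V) (w : V → ℝ) (K : ℝ) (h : RS S Ω w R K) (v : V) :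
    Pr {β | v ∈ S β} ≤ K * Real.log 4 ^ R * w v := by
  obtain ⟨_, _, _, _, _, _, hD⟩ := h
  have hc : CD (Set.univ : Set (V → Bool)) ∅ := by
    intro b b' _
    simp
  have hin : ∀ u ∈ insert v (∅ : Finset V), ∀ τ ∈ ({((0 : ℤ), (0 : ℤ))} : Finset V), (u.1 - τ.1, u.2 - τ.2) ∈ ({v} : Finset V) := by
    intro u hu τ hτ
    rw [mem_insert] at hu
    rcases hu with hu | hu
    · rw [mem_singleton] at hτ
      subst hu
      subst hτ
      simp
    · exact absurd hu (notMem_empty _)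
  have h1 := hD {((0 : ℤ), (0 : ℤ))} {v} ∅ v Set.univ hc hin
  have hu : Pr (Set.univ : Set (V → Bool)) = 1 := by
    unfold Pr
    exact probReal_univ
  rw [sum_singleton, hu, sum_singleton, Set.univ_inter] at h1
  have e4 : Real.log (1 / 1) + Real.log ((#({((0 : ℤ), (0 : ℤ))} : Finset V) : ℝ) + (#(∅ : Finset V) : ℝ) + 3) = Real.log 4 := by
    rw [card_singleton, card_empty]
    norm_num
  rw [e4, mul_one] at h1
  have e5 : {β : V → Bool | (v.1 - ((0 : ℤ), (0 : ℤ)).1, v.2 - ((0 : ℤ), (0 : ℤ)).2) ∈ S (fun u => β (u.1 + ((0 : ℤ), (0 : ℤ)).1, u.2 + ((0 : ℤ), (0 : ℤ)).2))} = {β | v ∈ S β} := by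
    simp
  rw [e5] at h1
  exact h1

theorem SUG_one (R : ℕ) (C0 : ℝ)
    (S : (V → Bool) → Finset V) (Ω : Finset V) (w : V → ℝ) (K : ℝ) (hRS : RS S Ω w R K)
    (hS : ∀ (k : Bool) (x : V) (t : ℕ), 1 ≤ t →
      Pr {β | SR (col β) k (S β) x t} ≤ C0 * K * Real.log (t + 2) ^ R * (∑ v ∈ Ω with sd x v ≤ 4 * t, w v) / (t : ℝ) ^ 2)
    (hCV : CV_stmt) (n : ℕ) (hn : 2 ≤ n)
    (hΩ : Ω ⊆ (univ : Finset (Fin n × Fin n)).image phi) (v₀ : V)
    (hv : v₀ ∈ (univ : Finset (Fin n × Fin n)).image phi) :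
    Pr {β | BAD (col β) (S β) v₀} ≤ K * Real.log 4 ^ R * (∑ v ∈ Ω with sd (v₀.1 + 0, v₀.2 + 0) v ≤ 200, w v) +
      ∑ j ∈ range (Nat.log 2 n + 1) ×ˢ (univ : Finset Bool) ×ˢ (Icc (-400 : ℤ) 400) ×ˢ (Icc (-400 : ℤ) 400),
        C0 * K * Real.log (((2 ^ j.1 : ℕ) : ℝ) + 2) ^ R *
          (∑ v ∈ Ω with sd (v₀.1 + 2 ^ j.1 * j.2.2.1, v₀.2 + 2 ^ j.1 * j.2.2.2) v ≤ 4 * 2 ^ j.1, w v) /
          ((2 ^ j.1 : ℕ) : ℝ) ^ 2 := by
  have hsubΩ : ∀ β, S β ⊆ Ω := hRS.2.1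
  set J := range (Nat.log 2 n + 1) ×ˢ (univ : Finset Bool) ×ˢ (Icc (-400 : ℤ) 400) ×ˢ (Icc (-400 : ℤ) 400) with hJ
  set Q := Ω.filter fun v => sd (v₀.1 + 0, v₀.2 + 0) v ≤ 200 with hQ
  have hsub : {β | BAD (col β) (S β) v₀} ⊆
      (⋃ v ∈ Q, {β | v ∈ S β}) ∪
      ⋃ j ∈ J, {β | SR (col β) j.2.1 (S β) (v₀.1 + 2 ^ j.1 * j.2.2.1, v₀.2 + 2 ^ j.1 * j.2.2.2) (2 ^ j.1)} := by
    intro b hb
    have hb' : BAD (TP.col b) (S b) v₀ := hb
    rcases hCV n (TP.col b) (S b) v₀ hn ((hsubΩ b).trans hΩ) hv hb' with ⟨u, hu, hle⟩ | ⟨s, hs, k, p, hp, q, hq, hSR⟩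
    · left
      rw [Set.mem_iUnion₂]
      refine ⟨u, ?_, hu⟩
      rw [hQ, mem_filter]
      refine ⟨hsubΩ b hu, ?_⟩
      have : (v₀.1 + 0, v₀.2 + 0) = v₀ := by simp
      rw [this]
      exact hle
    · right
      rw [Set.mem_iUnion₂]
      refine ⟨(s, k, p, q), ?_, hSR⟩
      simp only [hJ, mem_product, mem_univ, true_and]
      exact ⟨hs, hp, hq⟩
  have h3 : Pr {β | BAD (col β) (S β) v₀} ≤ (∑ v ∈ Q, Pr {β | v ∈ S β}) +
      ∑ j ∈ J, Pr {β | SR (col β) j.2.1 (S β) (v₀.1 + 2 ^ j.1 * j.2.2.1, v₀.2 + 2 ^ j.1 * j.2.2.2) (2 ^ j.1)} := by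
    unfold Pr
    refine le_trans (measureReal_mono hsub (measure_ne_top _ _)) ?_
    refine le_trans (measureReal_union_le _ _) ?_
    exact add_le_add (measureReal_biUnion_finset_le _ _) (measureReal_biUnion_finset_le _ _)
  refine h3.trans (add_le_add ?_ ?_)
  · rw [mul_sum]
    exact sum_le_sum fun v _ => SUG_pt R S Ω w K hRS v
  · refine sum_le_sum fun j _ => ?_
    exact hS j.2.1 _ (2 ^ j.1) Nat.one_le_two_pow

theorem SUG (h1 : CV_stmt) (h2 : SPG_stmt) : SUG_stmt := by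
  intro R
  obtain ⟨C0, hC0, hS⟩ := h2 R
  refine ⟨2 ^ R * (2 * 401 ^ 2 + 4 * (2 * 801 ^ 2) * (81 * C0)), by positivity, ?_⟩
  intro n S Ω w K hn hΩ hRS
  have hK : 0 ≤ K := hRS.2.2.2.2.2.1
  have hw : ∀ v, 0 ≤ w v := hRS.2.2.2.1
  have hlog : (1 / 2 : ℝ) ≤ Real.log n := by
    have h2 : Real.log 2 ≤ Real.log n := Real.log_le_log (by norm_num) (by exact_mod_cast hn)
    have := Real.log_two_gt_d9
    linarith
  have hL : ((Nat.log 2 n : ℕ) : ℝ) ≤ 2 * Real.log n := by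
    have h1 : (2 : ℝ) ^ (Nat.log 2 n) ≤ n := by
      exact_mod_cast Nat.pow_log_le_self 2 (by omega)
    have h2 := Real.log_le_log (by positivity) h1
    rw [Real.log_pow] at h2
    have h3 := Real.log_two_gt_d9
    have h4 : (0 : ℝ) ≤ (Nat.log 2 n : ℕ) := Nat.cast_nonneg _
    nlinarith
  set X := (univ : Finset (Fin n × Fin n)).image phi with hX
  set J := range (Nat.log 2 n + 1) ×ˢ (univ : Finset Bool) ×ˢ (Icc (-400 : ℤ) 400) ×ˢ (Icc (-400 : ℤ) 400) with hJ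
  have hJc : (#J : ℝ) = ((Nat.log 2 n : ℕ) + 1) * (2 * (801 * 801)) := by
    rw [hJ, card_product, card_product, card_product, card_range, card_univ, Fintype.card_bool, Int.card_Icc]
    have : (400 + 1 - (-400 : ℤ)).toNat = 801 := by decide
    rw [this]
    push_cast
    ring
  have hn2 : (2 : ℝ) ≤ n := by exact_mod_cast hn
  have hl2n : Real.log (2 * n) ≤ 2 * Real.log n := by
    have h : Real.log (2 * n) ≤ Real.log ((n : ℝ) ^ 2) := Real.log_le_log (by positivity) (by nlinarith)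
    rwa [Real.log_pow, Nat.cast_ofNat] at h
  have hlg4 : Real.log 4 ^ R ≤ 2 ^ R * Real.log n ^ R := by
    rw [← mul_pow]
    apply pow_le_pow_left₀ (Real.log_nonneg (by norm_num))
    exact (Real.log_le_log (by norm_num) (by linarith)).trans hl2n
  have hlgs : ∀ j ∈ J, Real.log (((2 ^ j.1 : ℕ) : ℝ) + 2) ^ R ≤ 2 ^ R * Real.log n ^ R := by
    intro j hj
    rw [hJ, mem_product, mem_range] at hj
    have h1 : 2 ^ j.1 ≤ n := (Nat.pow_le_pow_right (by norm_num) (by omega)).trans (Nat.pow_log_le_self 2 (by omega))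
    have h2 : ((2 ^ j.1 : ℕ) : ℝ) ≤ n := by exact_mod_cast h1
    have h3 : (1 : ℝ) ≤ ((2 ^ j.1 : ℕ) : ℝ) := by exact_mod_cast Nat.one_le_two_pow
    rw [← mul_pow]
    apply pow_le_pow_left₀ (Real.log_nonneg (by linarith))
    exact (Real.log_le_log (by linarith) (by linarith)).trans hl2n
  have hW : 0 ≤ ∑ v ∈ Ω, w v := sum_nonneg fun v _ => hw v
  set W := ∑ v ∈ Ω, w v with hWd
  have hlR : 0 ≤ Real.log n ^ R := pow_nonneg (by linarith) _
  calc ∑ v₀ ∈ X, Pr {β | BAD (col β) (S β) v₀}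
      ≤ ∑ v₀ ∈ X, (K * Real.log 4 ^ R * (∑ v ∈ Ω with sd (v₀.1 + 0, v₀.2 + 0) v ≤ 200, w v) +
      ∑ j ∈ J, C0 * K * Real.log (((2 ^ j.1 : ℕ) : ℝ) + 2) ^ R *
          (∑ v ∈ Ω with sd (v₀.1 + 2 ^ j.1 * j.2.2.1, v₀.2 + 2 ^ j.1 * j.2.2.2) v ≤ 4 * 2 ^ j.1, w v) /
          ((2 ^ j.1 : ℕ) : ℝ) ^ 2) :=
        sum_le_sum fun v₀ hv => SUG_one R C0 S Ω w K hRS (fun k x t ht => hS S Ω w K k x t ht hRS) h1 n hn hΩ v₀ hv
    _ = K * Real.log 4 ^ R * (∑ v₀ ∈ X, ∑ v ∈ Ω with sd (v₀.1 + 0, v₀.2 + 0) v ≤ 200, w v) +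
        ∑ j ∈ J, C0 * K * Real.log (((2 ^ j.1 : ℕ) : ℝ) + 2) ^ R *
          (∑ v₀ ∈ X, ∑ v ∈ Ω with sd (v₀.1 + 2 ^ j.1 * j.2.2.1, v₀.2 + 2 ^ j.1 * j.2.2.2) v ≤ 4 * 2 ^ j.1, w v) /
          ((2 ^ j.1 : ℕ) : ℝ) ^ 2 := by
        rw [sum_add_distrib, sum_comm, mul_sum]
        congr 1
        apply sum_congr rfl
        intro j _
        rw [mul_sum, sum_div]
    _ ≤ K * (2 ^ R * Real.log n ^ R) * (401 ^ 2 * W) + ∑ _j ∈ J, C0 * K * (2 ^ R * Real.log n ^ R) * (81 * W) := by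
        apply add_le_add
        · apply mul_le_mul
          · exact mul_le_mul_of_nonneg_left hlg4 hK
          · have := SUG_dbl X Ω w hw 0 0 200
            refine this.trans (le_of_eq ?_)
            rw [hWd]
            norm_num
          · exact sum_nonneg fun v₀ _ => sum_nonneg fun v _ => hw v
          · positivity
        · apply sum_le_sum
          intro j hj
          have hpos : (0 : ℝ) < ((2 ^ j.1 : ℕ) : ℝ) ^ 2 := by positivity
          rw [div_le_iff₀ hpos]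
          have h5 := SUG_dbl4 X Ω w hw (2 ^ j.1 * j.2.2.1) (2 ^ j.1 * j.2.2.2) (2 ^ j.1) Nat.one_le_two_pow
          have h6 : C0 * K * Real.log (((2 ^ j.1 : ℕ) : ℝ) + 2) ^ R ≤ C0 * K * (2 ^ R * Real.log n ^ R) :=
            mul_le_mul_of_nonneg_left (hlgs j hj) (by positivity)
          calc _ ≤ C0 * K * (2 ^ R * Real.log n ^ R) * (81 * ((2 ^ j.1 : ℕ) : ℝ) ^ 2 * W) := by
                apply mul_le_mul h6 h5
                · exact sum_nonneg fun v₀ _ => sum_nonneg fun v _ => hw v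
                · positivity
            _ = _ := by ring
    _ ≤ 2 ^ R * (2 * 401 ^ 2 + 4 * (2 * 801 ^ 2) * (81 * C0)) * K * Real.log n ^ (R + 1) * W := by
        rw [sum_const, nsmul_eq_mul, hJc]
        have hL1 : ((Nat.log 2 n : ℕ) : ℝ) + 1 ≤ 4 * Real.log n := by linarith
        have hKW : 0 ≤ K * W := mul_nonneg hK hW
        have t1 : K * (2 ^ R * Real.log n ^ R) * (401 ^ 2 * W) ≤ K * (2 ^ R * Real.log n ^ R) * (401 ^ 2 * W) * (2 * Real.log n) :=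
          le_mul_of_one_le_right (by positivity) (by linarith)
        have t2 : (((Nat.log 2 n : ℕ) : ℝ) + 1) * (2 * (801 * 801)) * (C0 * K * (2 ^ R * Real.log n ^ R) * (81 * W)) ≤
            4 * Real.log n * (2 * (801 * 801)) * (C0 * K * (2 ^ R * Real.log n ^ R) * (81 * W)) := by
          apply mul_le_mul_of_nonneg_right _ (by positivity)
          apply mul_le_mul_of_nonneg_right hL1 (by norm_num)
        calc _ ≤ K * (2 ^ R * Real.log n ^ R) * (401 ^ 2 * W) * (2 * Real.log n) +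
              4 * Real.log n * (2 * (801 * 801)) * (C0 * K * (2 ^ R * Real.log n ^ R) * (81 * W)) := add_le_add t1 t2
          _ = _ := by rw [pow_succ]; ring

end TP.TW
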