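import Pool.Agent.helper48.TH.Spec

set_option autoImplicit false

namespace TP.TW

open DP MeasureTheory Finset

theorem INF_and (n : ℕ) (E F : (Fin n → Bool) → Prop) [DecidablePred E] [DecidablePred F]
    [DecidablePred fun x => E x ∧ F x] (p : ℝ) (hp : p ≠ 0) :
    (#{x | E x ∧ F x} : ℝ) / 2 ^ n = p * av (fun x => if F x then (if E x then 1 / p else 0) else 0) := by
  unfold av
  rw [card_filter]
  push_cast
  rw [← mul_div_assoc, mul_sum]
  congr 1
  apply sum_congr rfl
  intro x _
  by_cases hE : E x <;> by_cases hF : F x <;> simp [hE, hF, hp]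

theorem INF_av (n : ℕ) (E : (Fin n → Bool) → Prop) [DecidablePred E] (a : ℝ) :
    av (fun x => if E x then a else 0) = (#{x | E x} : ℝ) / 2 ^ n * a := by
  unfold av
  rw [card_filter]
  push_cast
  rw [div_mul_eq_mul_div, sum_mul]
  congr 1
  apply sum_congr rfl
  intro x _
  by_cases hE : E x <;> simp [hE]

theorem INF (she : SHE_stmt) (yng : YNG_stmt) (cxe : CXE_stmt) : INF_stmt := by
  classical
  intro n κ T E F Λ A M p hp hE hF hM
  have hp0 : 0 ≤ p := by
    rw [hp]
    positivity
  have hle : ∀ τ, (#{x | E x ∧ F τ x} : ℝ) / 2 ^ n ≤ p := by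
    intro τ
    rw [hp]
    apply div_le_div_of_nonneg_right _ (by positivity)
    have : #{x | E x ∧ F τ x} ≤ #{x | E x} := by
      apply card_le_card
      intro x hx
      exact mem_filter.2 ⟨mem_univ _, (mem_filter.1 hx).2.1⟩
    exact_mod_cast this
  by_cases hz : p = 0
  · have h1 : ∑ τ ∈ T, (#{x | E x ∧ F τ x} : ℝ) / 2 ^ n ≤ ∑ τ ∈ T, (0 : ℝ) :=
      sum_le_sum fun τ _ => by
        have := hle τ
        rw [hz] at this
        exact this
    rw [sum_const_zero] at h1
    refine h1.trans (le_of_eq ?_)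
    rw [hz]
    ring
  · have hpos : 0 < p := lt_of_le_of_ne hp0 (Ne.symm hz)
    obtain ⟨f, hf⟩ : ∃ f : (Fin n → Bool) → ℝ, f = fun x => if E x then 1 / p else 0 := ⟨_, rfl⟩
    have hf0 : ∀ x, 0 ≤ f x := by
      intro x
      rw [hf]
      by_cases h : E x
      · simp only [h, if_true]; positivity
      · simp only [h, if_false]; exact le_rfl
    have hav : av f = 1 := by
      rw [hf, INF_av, ← hp]
      field_simp
    have hEt : Et f = Real.log (1 / p) := by
      unfold Et
      rw [hav]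
      have h1 : (fun x => ph (f x)) = fun x => if E x then ph (1 / p) else 0 := by
        funext x
        rw [hf]
        by_cases h : E x
        · simp only [h, if_true]
        · simp only [h, if_false]
          unfold ph
          ring
      rw [h1, INF_av, ← hp]
      unfold ph
      rw [Real.log_one, mul_zero, sub_zero]
      field_simp
    obtain ⟨d, hd0, hd1, hd2⟩ := she n f hf0
    have hterm : ∀ τ ∈ T, (#{x | E x ∧ F τ x} : ℝ) / 2 ^ n ≤
        p * (∑ i ∈ A τ ∩ Λ, d i + 2 * ((#{x | F τ x} : ℝ) / 2 ^ n)) := by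
      intro τ hτ
      obtain ⟨c1, c2, c3, c4⟩ := cxe n (A τ) f
      have hc4 : cex (A τ) f = cex (A τ ∩ Λ) f := by
        apply c4
        intro x y hxy
        have := hE x y hxy
        rw [hf]
        by_cases h : E x
        · simp only [h, this.1 h, if_true]
        · have h' : ¬ E y := fun hy => h (this.2 hy)
          simp only [h, h', if_false]
      have hy := yng n (cex (A τ) f) (F τ) (c1 hf0) (c2.trans hav)
      rw [← c3 (F τ) (hF τ hτ)] at hy
      have he := hd2 (A τ ∩ Λ)
      rw [← hc4] at he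
      rw [INF_and n E (F τ) p hz]
      apply mul_le_mul_of_nonneg_left _ hp0
      rw [hf] at hy he
      linarith
    have hswap : ∑ τ ∈ T, ∑ i ∈ A τ ∩ Λ, d i ≤ M * Real.log (1 / p) := by
      have h1 : ∀ τ, ∑ i ∈ A τ ∩ Λ, d i = ∑ i ∈ Λ, if i ∈ A τ then d i else 0 := by
        intro τ
        rw [inter_comm, ← filter_mem_eq_inter, sum_filter]
      simp_rw [h1]
      rw [sum_comm]
      have h2 : ∀ i ∈ Λ, ∑ τ ∈ T, (if i ∈ A τ then d i else 0) ≤ M * d i := by
        intro i hi
        rw [← sum_filter, sum_const, nsmul_eq_mul]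
        apply mul_le_mul_of_nonneg_right _ (hd0 i)
        exact_mod_cast hM i hi
      refine (sum_le_sum h2).trans ?_
      rw [← mul_sum]
      apply mul_le_mul_of_nonneg_left _ (Nat.cast_nonneg M)
      rw [← hEt, ← hd1]
      exact sum_le_sum_of_subset_of_nonneg (subset_univ _) fun i _ _ => hd0 i
    calc ∑ τ ∈ T, (#{x | E x ∧ F τ x} : ℝ) / 2 ^ n
        ≤ ∑ τ ∈ T, p * (∑ i ∈ A τ ∩ Λ, d i + 2 * ((#{x | F τ x} : ℝ) / 2 ^ n)) := sum_le_sum hterm
      _ = p * (∑ τ ∈ T, ∑ i ∈ A τ ∩ Λ, d i) + 2 * p * ∑ τ ∈ T, (#{x | F τ x} : ℝ) / 2 ^ n := by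
          rw [← mul_sum, sum_add_distrib, mul_add, ← mul_sum]
          ring
      _ ≤ p * (M * Real.log (1 / p)) + 2 * p * ∑ τ ∈ T, (#{x | F τ x} : ℝ) / 2 ^ n := by
          have := mul_le_mul_of_nonneg_left hswap hp0
          linarith

end TP.TW
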