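import Pool.Agent.helper48.TH.Spec

set_option autoImplicit false

namespace TP.TW

open DP MeasureTheory Finset

theorem INP_prn (prn : PRN_stmt) (N : ℕ) (ε : Fin N → V) (hε : Function.Injective ε) (P : (Fin N → Bool) → Prop)
    [inst : DecidablePred P] : Pr {β : V → Bool | P (fun i => β (ε i))} = (#{x : Fin N → Bool | P x} : ℝ) / 2 ^ N := by
  have h : inst = fun a => Classical.propDecidable (P a) := Subsingleton.elim _ _
  subst h
  exact prn N ε hε P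

theorem INP (inf : INF_stmt) (prn : PRN_stmt) : INP_stmt := by
  classical
  intro κ T E F Λ A M hE hF hM
  obtain ⟨Ω, hΩ⟩ : ∃ Ω : Finset V, Ω = Λ ∪ T.biUnion A := ⟨_, rfl⟩
  obtain ⟨ε, hε⟩ : ∃ ε : Fin #Ω → V, ε = fun i => (Ω.equivFin.symm i).1 := ⟨_, rfl⟩
  have hinj : Function.Injective ε := by
    rw [hε]
    intro i j h
    exact Ω.equivFin.symm.injective (Subtype.ext h)
  obtain ⟨ex, hex⟩ : ∃ ex : (Fin #Ω → Bool) → V → Bool,
      ∀ x v (h : v ∈ Ω), ex x v = x (Ω.equivFin ⟨v, h⟩) :=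
    ⟨fun x v => if h : v ∈ Ω then x (Ω.equivFin ⟨v, h⟩) else false, fun x v h => by simp only [h, dif_pos]⟩
  have hεv : ∀ v (h : v ∈ Ω), ε (Ω.equivFin ⟨v, h⟩) = v := by
    intro v h
    rw [hε]
    simp
  have hset : ∀ (G : Set (V → Bool)) (Λ' : Finset V), Λ' ⊆ Ω → CD G Λ' →
      {β : V → Bool | ex (fun i => β (ε i)) ∈ G} = G := by
    intro G Λ' hsub hG
    ext β
    exact hG _ _ fun v hv => by rw [hex _ v (hsub hv), hεv]
  have hΛ : Λ ⊆ Ω := by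
    rw [hΩ]
    exact subset_union_left
  have hA : ∀ τ ∈ T, A τ ⊆ Ω := by
    intro τ hτ
    rw [hΩ]
    exact (subset_biUnion_of_mem A hτ).trans subset_union_right
  have hPE : Pr E = (#{x : Fin #Ω → Bool | ex x ∈ E} : ℝ) / 2 ^ #Ω := by
    rw [← INP_prn prn _ ε hinj (fun x => ex x ∈ E), hset E Λ hΛ hE]
  have hPF : ∀ τ ∈ T, Pr (F τ) = (#{x : Fin #Ω → Bool | ex x ∈ F τ} : ℝ) / 2 ^ #Ω := by
    intro τ hτ
    rw [← INP_prn prn _ ε hinj (fun x => ex x ∈ F τ), hset (F τ) (A τ) (hA τ hτ) (hF τ hτ)]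
  have hPEF : ∀ τ ∈ T, Pr (E ∩ F τ) = (#{x : Fin #Ω → Bool | ex x ∈ E ∧ ex x ∈ F τ} : ℝ) / 2 ^ #Ω := by
    intro τ hτ
    rw [← INP_prn prn _ ε hinj (fun x => ex x ∈ E ∧ ex x ∈ F τ)]
    have h1 : {β : V → Bool | ex (fun i => β (ε i)) ∈ E ∧ ex (fun i => β (ε i)) ∈ F τ} =
        {β : V → Bool | ex (fun i => β (ε i)) ∈ E} ∩ {β : V → Bool | ex (fun i => β (ε i)) ∈ F τ} := rfl
    rw [h1, hset E Λ hΛ hE, hset (F τ) (A τ) (hA τ hτ) (hF τ hτ)]
  have key := inf #Ω κ T (fun x => ex x ∈ E) (fun τ x => ex x ∈ F τ) (univ.filter fun i => ε i ∈ Λ)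
    (fun τ => univ.filter fun i => ε i ∈ A τ) M (Pr E) hPE ?_ ?_ ?_
  · rw [sum_congr rfl hPEF, sum_congr rfl hPF]
    exact key
  · intro x y hxy
    apply hE
    intro v hv
    rw [hex x v (hΛ hv), hex y v (hΛ hv)]
    apply hxy
    rw [mem_filter]
    refine ⟨mem_univ _, ?_⟩
    rw [hεv]
    exact hv
  · intro τ hτ x y hxy
    apply hF τ hτ
    intro v hv
    rw [hex x v (hA τ hτ hv), hex y v (hA τ hτ hv)]
    apply hxy
    rw [mem_filter]
    refine ⟨mem_univ _, ?_⟩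
    rw [hεv]
    exact hv
  · intro i hi
    have h1 := hM (ε i) (mem_filter.1 hi).2
    refine le_trans (le_of_eq ?_) h1
    congr 1
    apply filter_congr
    intro τ _
    rw [mem_filter]
    simp

end TP.TW
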